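import Pool.Agent.H7.LP.Targets

/-!
Row INV of the board lpg_modules: codes and structures depend only on cosets.
-/

set_option autoImplicit false

open Set Filter Topology

namespace Pool.Agent.H86.LPG

open Pool.Agent.H93.CP Pool.Agent.H7.LP

section

variable {G X : Type} [Group G] [TopologicalSpace G] [IsTopologicalGroup G] [MeasurableSpace X]
  {L : LPD G} {M : Subgroup G} [MulAction M X] {Y : Hit M X}

theorem node_mul (h1 : T_LAB) (S : Sys L Y) (x : X) (q : ℕ) (u g : G) (hu : u ∈ S.K q)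
    (hn : S.Node x q g) : S.Node x q (u * g) := by
  obtain ⟨-, h2, -⟩ := h1 G
  have hs := S.le q hu
  rw [mem_Stb] at hs
  unfold Sys.Node at hn ⊢
  rw [tr_mul, h2 _ _ _ (L.piece (S.k q)) u hs.1, hn, hs.2]

theorem str_one (hA : T_ADM) (S : Sys L Y) (i j : ℕ × ℕ) (n : ℕ) (e e' : ℕ × ℕ → G)
    (hi : e' i * (e i)⁻¹ ∈ S.K i.1) (hj : e' j * (e j)⁻¹ ∈ S.K j.1)
    (h : S.Adm i.1 j.1 (e i * (e j)⁻¹) ∧ (S.gm n)⁻¹ * (e i * (e j)⁻¹) ∈ S.K j.1) :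
    S.Adm i.1 j.1 (e' i * (e' j)⁻¹) ∧ (S.gm n)⁻¹ * (e' i * (e' j)⁻¹) ∈ S.K j.1 := by
  have hj' : (e' j * (e j)⁻¹)⁻¹ ∈ S.K j.1 := (S.K j.1).inv_mem hj
  obtain ⟨a1, a2⟩ := hA G X L M Y S i.1 j.1 _ _ _ h.1 hi hj'
  have e1 : e' i * (e i)⁻¹ * (e i * (e j)⁻¹) * (e' j * (e j)⁻¹)⁻¹ = e' i * (e' j)⁻¹ := by
    group
  rw [e1] at a1 a2
  refine ⟨a1, ?_⟩
  have h3 := (S.K j.1).mul_mem h.2 a2
  have e2 : (S.gm n)⁻¹ * (e i * (e j)⁻¹) * ((e i * (e j)⁻¹)⁻¹ * (e' i * (e' j)⁻¹)) =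
      (S.gm n)⁻¹ * (e' i * (e' j)⁻¹) := by
    group
  rwa [e2] at h3

end

theorem pf_INV (h1 : T_LAB) (h2 : T_ADM) : T_INV := by
  intro G X _ _ _ _ L M _ Y S x e e' he
  have he' : ∀ (i : ℕ × ℕ) (g : G), S.Node x i.1 g → e i * (e' i)⁻¹ ∈ S.K i.1 := by
    intro i g hg
    have h3 := (S.K i.1).inv_mem (he i g hg)
    have e1 : (e' i * (e i)⁻¹)⁻¹ = e i * (e' i)⁻¹ := by group
    rwa [e1] at h3
  constructor
  · intro hc
    constructor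
    · intro q g hg j
      have h3 := node_mul h1 S x q _ _ (he (q, j) g hg) (hc.node q g hg j)
      rwa [inv_mul_cancel_right] at h3
    · intro q g hg N
      obtain ⟨j, hj, hj2⟩ := hc.all q g hg N
      refine ⟨j, hj, ?_⟩
      have h3 := (S.K q).mul_mem hj2 (he' (q, j) g hg)
      have e2 : g * (e (q, j))⁻¹ * (e (q, j) * (e' (q, j))⁻¹) = g * (e' (q, j))⁻¹ := by group
      rwa [e2] at h3
  · intro w hw i j n
    rw [hw i j n]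
    constructor
    · rintro ⟨⟨g, hg⟩, ⟨g', hg'⟩, h3⟩
      exact ⟨⟨g, hg⟩, ⟨g', hg'⟩, str_one h2 S i j n e e' (he i g hg) (he j g' hg') h3⟩
    · rintro ⟨⟨g, hg⟩, ⟨g', hg'⟩, h3⟩
      exact ⟨⟨g, hg⟩, ⟨g', hg'⟩, str_one h2 S i j n e' e (he' i g hg) (he' j g' hg') h3⟩

end Pool.Agent.H86.LPG
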