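import Pool.Agent.H7.LP.Targets

/-!
Row SYS of the board lpg_modules: the system exists.
-/

set_option autoImplicit false

open Set Filter Topology

namespace Pool.Agent.H86.LPG

open Pool.Agent.H93.CP Pool.Agent.H7.LP

theorem dense_sub {G : Type} [Group G] [TopologicalSpace G] [IsTopologicalGroup G] [PolishSpace G]
    (K : Subgroup G) : ∃ kap : ℕ → G, (∀ n, kap n ∈ K) ∧
      ∀ g ∈ K, ∀ U ∈ 𝓝 g, ∃ n, kap n ∈ U := by
  have _i : SecondCountableTopology K :=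
    TopologicalSpace.Subtype.secondCountableTopology (K : Set G)
  have _j : TopologicalSpace.SeparableSpace K := inferInstance
  refine ⟨fun n => (TopologicalSpace.denseSeq K n : G), fun n => Subtype.mem _, ?_⟩
  intro g hg U hU
  have hd := TopologicalSpace.denseRange_denseSeq K
  have h1 : (Subtype.val ⁻¹' U : Set K) ∈ 𝓝 (⟨g, hg⟩ : K) :=
    continuous_subtype_val.continuousAt.preimage_mem_nhds hU
  obtain ⟨y, hy, ⟨n, rfl⟩⟩ := mem_closure_iff_nhds.1 (hd ⟨g, hg⟩) _ h1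
  exact ⟨n, hy⟩

theorem pf_SYS (h1 : T_LAB) (h2 : T_TYC) (h3 : T_EXN) (h4 : T_DRR) (h5 : T_GAM) :
    Pool.Agent.H7.LP.T_SYS := by
  intro G X _ _ _ _ _ _ L M _ Y P
  obtain ⟨x₀⟩ := (inferInstance : Nonempty X)
  obtain ⟨q₀, -, -⟩ := h3 G X L M Y P x₀
  have hc : Countable (Ty P) := h2 G X L M Y P
  have hne : Nonempty (Ty P) := ⟨q₀⟩
  obtain ⟨φ, hφ⟩ := exists_surjective_nat (Ty P)
  obtain ⟨gm, hgm⟩ := h5 G X L M Y P hc
  choose kap hk1 hk2 using fun n => dense_sub (φ n).K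
  exact ⟨{
    k := fun n => (φ n).k
    y := fun n => lab (L.R (φ n).k) (tr (φ n).z.2 (Y.C (φ n).z.1))
    K := fun n => (φ n).K
    ycl := fun q n => (h1 G).1 _ _ _
    ge := fun q => (φ q).ge
    le := fun q => (φ q).le
    opn := fun q => (φ q).opn
    tight := fun q => (φ q).tight
    ex := fun x => by
      obtain ⟨q, g, h⟩ := h3 G X L M Y P x
      obtain ⟨n, rfl⟩ := hφ q
      exact ⟨n, g, h⟩
    dir := fun x q₁ q₂ g₁ g₂ m a₁ a₂ => by
      obtain ⟨q, g, b1, b2, b3, b4, b5⟩ := h4 G X L M Y P x (φ q₁) (φ q₂) g₁ g₂ m a₁ a₂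
      obtain ⟨n, rfl⟩ := hφ q
      exact ⟨n, g, b1, b2, b3, b4, b5⟩
    gm := gm
    gam := fun x q' q g' g a₁ a₂ a₃ => hgm x (φ q') (φ q) g' g a₁ a₂ a₃
    kap := kap
    kapK := hk1
    kapD := hk2 }⟩

end Pool.Agent.H86.LPG
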